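import Pool.Agent.LPW.StmtsE
import Pool.Agent.Helper31_LUB.CLB

/-!
# Squad LPW, row COV: the exceptional points of a class lie on few curves
-/

set_option autoImplicit false

open Polynomial NumberField
open Pool.Agent.Helper85_Leo (LeopoldtAt)
open Pool.Agent.LUB (FullRank sp spr LogMod EvhStmt InvStmt CriConcl)
open Pool.Agent.LUB.H31 (logMod_map sep ev_one)

namespace Pool.Agent.LPW.H84

open Pool.Agent.LPW

theorem spr2_map {R S : Type} [CommRing R] [CommRing S] (φ : R →+* S)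
    (f : (MvPolynomial (Fin 2) ℤ)[X]) (P : Fin 2 → R) :
    (spr2 f P).map φ = spr2 f (fun i => φ (P i)) := by
  unfold spr2
  rw [Polynomial.map_map]
  congr 1
  apply MvPolynomial.ringHom_ext
  · intro r
    simp
  · intro i
    simp

theorem spr2_monic {R : Type} [CommRing R] {f : (MvPolynomial (Fin 2) ℤ)[X]} (hf : f.Monic)
    (P : Fin 2 → R) : (spr2 f P).Monic := hf.map _

theorem spr2_deg {R : Type} [CommRing R] [Nontrivial R] {f : (MvPolynomial (Fin 2) ℤ)[X]}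
    (hf : f.Monic) (P : Fin 2 → R) : (spr2 f P).natDegree = f.natDegree := hf.natDegree_map _

/-- Bezout relation at an exceptional point -/
theorem bez2 (inv : InvStmt) {p : ℕ} [Fact p.Prime] {r n : ℕ} {f : (MvPolynomial (Fin 2) ℤ)[X]}
    {u : Fin r → (MvPolynomial (Fin 2) ℤ)[X]} (hf : f.Monic) (hn : f.natDegree = n)
    {P : Fin 2 → ℤ} (h : ExcPt p n (spr2 f P) (fun i => spr2 (u i) P)) :
    (∀ i, ∃ a b : ℤ[X], spr2 (u i) P * a + spr2 f P * b = 1) ∧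
      ((spr2 f P).map (Int.castRingHom ℚ)).Separable := by
  obtain ⟨K, _, _, θ, h0, h1, h2, h3, -, -⟩ := h
  have h4 : Module.finrank ℚ K = (spr2 f P).natDegree := by rw [spr2_deg hf, h2, hn]
  exact ⟨fun i => inv K θ (spr2 f P) (spr2 (u i) P) (spr2_monic hf P) h0 h1 h4 (h3 i),
    sep (spr2_monic hf P) h0 h1 h4⟩

/-- the coordinates of a point of the class -/
theorem ex_x (p : ℕ) [Fact p.Prime] {P c : Fin 2 → ℤ} (h : ∀ i, (p : ℤ) ^ 3 ∣ P i - c i) :
    ∃ x : Fin 2 → ℤ_[p], ∀ i, (P i : ℤ_[p]) = c i + (p : ℤ_[p]) ^ 3 * x i := by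
  choose m hm using h
  refine ⟨fun i => (m i : ℤ_[p]), fun i => ?_⟩
  have h1 : P i = c i + (p : ℤ) ^ 3 * m i := by linarith [hm i]
  rw [h1]
  push_cast
  ring

theorem norm_px (p : ℕ) [hp : Fact p.Prime] (x : ℤ_[p]) : ‖(p : ℤ_[p]) * x‖ < 1 := by
  rw [norm_mul]
  have h1 : ‖(p : ℤ_[p])‖ < 1 := by
    rw [PadicInt.norm_p]
    exact inv_lt_one_of_one_lt₀ (by exact_mod_cast hp.out.one_lt)
  have h2 : ‖x‖ ≤ 1 := PadicInt.norm_le_one _
  have h3 : 0 ≤ ‖(p : ℤ_[p])‖ := norm_nonneg _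
  nlinarith

/-- an algebra homomorphism is the identity on constants -/
theorem alg_C {p : ℕ} [Fact p.Prime] (φ : PowerSeries ℤ_[p] →ₐ[ℤ_[p]] ℤ_[p]) (y : ℤ_[p]) :
    φ (PowerSeries.C y) = y := φ.commutes y

/-- the minors vanish at the exceptional points -/
theorem van2 (cri : CriConcl) {p : ℕ} [Fact p.Prime] {n r : ℕ}
    {f : (MvPolynomial (Fin 2) ℤ)[X]} {u : Fin r → (MvPolynomial (Fin 2) ℤ)[X]}
    (hf : f.Monic) (hn : f.natDegree = n) {c : Fin 2 → ℤ}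
    {T : Fin 2 → PowerSeries (PowerSeries ℤ_[p])}
    (hT0 : T 0 = PowerSeries.C (PowerSeries.C (c 0 : ℤ_[p])) +
        (p : PowerSeries (PowerSeries ℤ_[p])) ^ 2 * PowerSeries.C PowerSeries.X)
    (hT1 : T 1 = PowerSeries.C (PowerSeries.C (c 1 : ℤ_[p])) +
        (p : PowerSeries (PowerSeries ℤ_[p])) ^ 2 * PowerSeries.X)
    {M : ℕ} (hM : 0 < M) {w b l : Fin r → (PowerSeries (PowerSeries ℤ_[p]))[X]}
    (h1 : ∀ i, spr2 (u i) T ^ M =
      1 + C ((p : PowerSeries (PowerSeries ℤ_[p])) ^ 2) * w i + spr2 f T * b i)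
    (h2 : ∀ i, LogMod p (spr2 f T) (w i) (l i)) (h3 : ∀ i, (l i).degree < n)
    (J : Fin r → Fin n) {P : Fin 2 → ℤ} (ht : ExcPt p n (spr2 f P) (fun i => spr2 (u i) P))
    {x : Fin 2 → ℤ_[p]} (hx : ∀ i, (P i : ℤ_[p]) = c i + (p : ℤ_[p]) ^ 3 * x i)
    (φ₀ φ₁ : PowerSeries ℤ_[p] →ₐ[ℤ_[p]] ℤ_[p]) (hφ₀ : φ₀ PowerSeries.X = p * x 0)
    (hφ₁ : φ₁ PowerSeries.X = p * x 1) :
    φ₁ (PowerSeries.map (φ₀ : PowerSeries ℤ_[p] →+* ℤ_[p])
      (Matrix.of fun i k => (l i).coeff (J k)).det) = 0 := by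
  by_contra hne
  obtain ⟨ψ, hψ⟩ : ∃ ψ : PowerSeries (PowerSeries ℤ_[p]) →ₐ[ℤ_[p]] ℤ_[p],
      ψ = φ₁.comp (PowerSeries.mapAlgHom φ₀) := ⟨_, rfl⟩
  have hψe : ∀ g, ψ.toRingHom g =
      φ₁ (PowerSeries.map (φ₀ : PowerSeries ℤ_[p] →+* ℤ_[p]) g) := by
    intro g
    rw [hψ]
    show φ₁ (PowerSeries.mapAlgHom φ₀ g) = _
    rw [PowerSeries.mapAlgHom_apply]
  have hCC : ∀ y : ℤ_[p], ψ.toRingHom (PowerSeries.C (PowerSeries.C y)) = y := by
    intro y
    rw [hψe, PowerSeries.map_C]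
    have e1 : (φ₀ : PowerSeries ℤ_[p] →+* ℤ_[p]) (PowerSeries.C y) = y := alg_C φ₀ y
    rw [e1, alg_C]
  have hCX : ψ.toRingHom (PowerSeries.C PowerSeries.X) = p * x 0 := by
    rw [hψe, PowerSeries.map_C]
    have e1 : (φ₀ : PowerSeries ℤ_[p] →+* ℤ_[p]) PowerSeries.X = p * x 0 := hφ₀
    rw [e1, alg_C]
  have hX : ψ.toRingHom PowerSeries.X = p * x 1 := by
    rw [hψe, PowerSeries.map_X, hφ₁]
  have hψT : (fun i => ψ.toRingHom (T i)) = fun i => (P i : ℤ_[p]) := by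
    funext i
    have h01 : ∀ i : Fin 2, ψ.toRingHom (T i) = (P i : ℤ_[p]) := by
      rw [Fin.forall_fin_two]
      constructor
      · rw [hT0, map_add, map_mul, map_pow, map_natCast, hCC, hCX, hx 0]
        ring
      · rw [hT1, map_add, map_mul, map_pow, map_natCast, hCC, hX, hx 1]
        ring
    exact h01 i
  have hcast : ∀ g : (MvPolynomial (Fin 2) ℤ)[X],
      (spr2 g T).map ψ.toRingHom = (spr2 g P).map (Int.castRingHom ℤ_[p]) := by
    intro g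
    rw [spr2_map, spr2_map, hψT]
    rfl
  obtain ⟨K, _, _, θ, k0, k1, k2, k3, k4, k5⟩ := ht
  have hdeg : (spr2 f P).natDegree = n := by rw [spr2_deg hf, hn]
  apply k5
  refine cri p r K θ (spr2 f P) (spr2_monic hf P) k0 k1 (by rw [hdeg, k2])
    (fun i => spr2 (u i) P) k3 M hM (fun i => (w i).map ψ.toRingHom)
    (fun i => (b i).map ψ.toRingHom) (fun i => (l i).map ψ.toRingHom) ?_ ?_ ?_ k4 ?_
  · intro i
    have e1 := congrArg (Polynomial.map ψ.toRingHom) (h1 i)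
    rw [Polynomial.map_pow, Polynomial.map_add, Polynomial.map_add, Polynomial.map_mul,
      Polynomial.map_mul, Polynomial.map_one, Polynomial.map_C, map_pow, map_natCast, hcast,
      hcast] at e1
    exact e1
  · intro i
    have e1 := logMod_map ψ (h2 i)
    rw [hcast] at e1
    exact e1
  · intro i
    rw [hdeg]
    exact (degree_map_le).trans_lt (h3 i)
  · refine ⟨fun k => Fin.cast hdeg.symm (J k), ?_⟩
    have e1 : (Matrix.of fun i k => ((l i).map ψ.toRingHom).coeff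
        ((Fin.cast hdeg.symm (J k) : Fin (spr2 f P).natDegree) : ℕ)) =
        ψ.toRingHom.mapMatrix (Matrix.of fun i k => (l i).coeff (J k)) := by
      ext i k
      rw [Matrix.of_apply, coeff_map]
      rfl
    show (Matrix.of fun i k => ((l i).map ψ.toRingHom).coeff
        ((Fin.cast hdeg.symm (J k) : Fin (spr2 f P).natDegree) : ℕ)).det ≠ 0
    rw [e1, ← RingHom.map_det, hψe]
    exact hne

/-- module COV -/
theorem cov : CovStmt := by
  intro evh no2 inv cri nv2 cl2 stp p hp n r D a c ε hε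
  by_cases H : ∃ (f : (MvPolynomial (Fin 2) ℤ)[X]) (u : Fin r → (MvPolynomial (Fin 2) ℤ)[X]),
    InCls2 p n D a f u ∧ ∃ P : Fin 2 → ℤ, (∀ i, (p : ℤ) ^ 3 ∣ P i - c i) ∧
      ∀ i, ∃ a b : ℤ[X], spr2 (u i) P * a + spr2 f P * b = 1
  · obtain ⟨M, hM, R, _, _, g, hg⟩ := cl2 p n r D a c H
    choose K hK using fun J => no2 p R (g J)
    choose d B hB using fun J => stp p (K J) ε hε
    refine ⟨∑ J, d J, ∑ J, |B J|, ?_⟩
    intro f u hcls A hA N hN
    have hNε : (0 : ℝ) ≤ (N : ℝ) ^ ε := Real.rpow_nonneg (Nat.cast_nonneg N) ε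
    obtain ⟨Z, hZ⟩ : ∃ Z : Set (Fin 2 → ℤ), Z = {P | P ∈ A ∧ (∀ i, |P i| ≤ N) ∧
        (∀ i, (p : ℤ) ^ 3 ∣ P i - c i) ∧
        ExcPt p n (spr2 f P) (fun i => spr2 (u i) P)} := ⟨_, rfl⟩
    by_cases hE : ∃ P, P ∈ Z
    · obtain ⟨P₀, hP₀⟩ := hE
      rw [hZ] at hP₀
      obtain ⟨hPA, -, hPc, hPe⟩ := hP₀
      have hf : f.Monic := hcls.1.1
      have hn : f.natDegree = n := hcls.1.2.1
      obtain ⟨hb, hs⟩ := bez2 inv hf hn hPe
      obtain ⟨T, hT0, hT1⟩ : ∃ T : Fin 2 → PowerSeries (PowerSeries ℤ_[p]),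
          T 0 = PowerSeries.C (PowerSeries.C (c 0 : ℤ_[p])) +
            (p : PowerSeries (PowerSeries ℤ_[p])) ^ 2 * PowerSeries.C PowerSeries.X ∧
          T 1 = PowerSeries.C (PowerSeries.C (c 1 : ℤ_[p])) +
            (p : PowerSeries (PowerSeries ℤ_[p])) ^ 2 * PowerSeries.X :=
        ⟨![_, _], rfl, rfl⟩
      obtain ⟨φ, w, b, l, h1, h2, h3, h4⟩ := hg f u hcls T hT0 hT1
      have hv : (![0, 1] : Fin 2 → ℤ) ≠ 0 := by
        intro h
        have := congrFun h 1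
        simp at this
      obtain ⟨J, hJ⟩ := nv2 p r f u hf P₀ c hPc (hA P₀ hPA _ hv) hs (fun i => by
        obtain ⟨x, y, hxy⟩ := hb i
        refine ⟨y.map (Int.castRingHom ℚ), x.map (Int.castRingHom ℚ), ?_⟩
        rw [← Polynomial.map_mul, ← Polynomial.map_mul, ← Polynomial.map_add, mul_comm y,
          mul_comm x, add_comm, hxy, Polynomial.map_one]) T hT0 hT1 M hM w b l h1 h2
        (fun i => by rw [hn]; exact h3 i)
      obtain ⟨J', hJ'⟩ : ∃ J' : Fin r → Fin n, J' = fun k => Fin.cast hn (J k) := ⟨_, rfl⟩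
      have hdet : (Matrix.of fun i k => (l i).coeff (J' k)).det ≠ 0 := by
        rw [hJ']
        exact hJ
      have hG := h4 J'
      have hfin : Z.Finite := by
        have h5 : (Set.Icc (fun _ => -(N : ℤ)) (fun _ => (N : ℤ)) : Set (Fin 2 → ℤ)).Finite :=
          Set.finite_Icc _ _
        refine h5.subset ?_
        intro P hP
        rw [hZ] at hP
        exact ⟨fun i => (abs_le.1 (hP.2.1 i)).1, fun i => (abs_le.1 (hP.2.1 i)).2⟩
      obtain ⟨𝓕, hF1, hF2, hF3⟩ := hB J' (PowerSeries.map (PowerSeries.map φ) (g J'))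
        (by rw [hG]; exact hdet) (hK J' φ) c N hN hfin.toFinset (by
          intro P hP
          rw [hfin.mem_toFinset, hZ] at hP
          obtain ⟨hp1, hp2, hp3, hp4⟩ := hP
          refine ⟨hp2, ?_⟩
          obtain ⟨x, hx⟩ := ex_x p hp3
          refine ⟨x, hx, ?_⟩
          obtain ⟨φ₀, hφ₀⟩ := ev_one evh p _ (norm_px p (x 0))
          obtain ⟨φ₁, hφ₁⟩ := ev_one evh p _ (norm_px p (x 1))
          refine ⟨φ₀, φ₁, hφ₀, hφ₁, ?_⟩
          rw [hG]
          exact van2 cri hf hn hT0 hT1 hM h1 h2 h3 J' hp4 hx φ₀ φ₁ hφ₀ hφ₁)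
      refine ⟨𝓕, ?_, ?_, ?_⟩
      · refine hF1.trans ?_
        have h5 : B J' ≤ ∑ J, |B J| := (le_abs_self _).trans
          (Finset.single_le_sum (f := fun J => |B J|) (fun _ _ => abs_nonneg _)
            (Finset.mem_univ J'))
        exact mul_le_mul_of_nonneg_right h5 hNε
      · intro Φ hΦ
        refine ⟨(hF2 Φ hΦ).1, (hF2 Φ hΦ).2.trans ?_⟩
        exact Finset.single_le_sum (f := fun J => d J) (fun _ _ => Nat.zero_le _)
          (Finset.mem_univ J')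
      · intro P hPA hPN hPc hPe
        apply hF3 P
        rw [hfin.mem_toFinset, hZ]
        exact ⟨hPA, hPN, hPc, hPe⟩
    · refine ⟨∅, ?_, ?_, ?_⟩
      · rw [Finset.card_empty, Nat.cast_zero]
        exact mul_nonneg (Finset.sum_nonneg fun _ _ => abs_nonneg _) hNε
      · intro Φ hΦ
        exact absurd hΦ (Finset.notMem_empty Φ)
      · intro P hPA hPN hPc hPe
        exact absurd ⟨P, by rw [hZ]; exact ⟨hPA, hPN, hPc, hPe⟩⟩ hE
  · refine ⟨0, 0, ?_⟩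
    intro f u hcls A hA N hN
    refine ⟨∅, ?_, ?_, ?_⟩
    · rw [Finset.card_empty, Nat.cast_zero, zero_mul]
    · intro Φ hΦ
      exact absurd hΦ (Finset.notMem_empty Φ)
    · intro P hPA hPN hPc hPe
      exact absurd ⟨f, u, hcls, P, hPc, (bez2 inv hcls.1.1 hcls.1.2.1 hPe).1⟩ H

end Pool.Agent.LPW.H84
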